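import Mathlib

/-!
Combinatorial core for the cookie game (MP_c8e9c8_co).

A position with pairwise distinct positive heaps is described by the tail counts
`N j` = number of heaps of size at least `j` (for `j ≥ 1`). The quantity `2 * N j + j` is a path
with steps `+1` and `-1`. A move at a heap of size `i` is the relation `Opt N N' i`.
`Mn N r c` says that the minimum of `2 * N j + j` over `1 ≤ j ≤ r` is `c`.
-/

set_option autoImplicit false

namespace Pool.Agent.Work.MP_c8e9c8_co

/-- tail counts of a position with distinct positive heaps -/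
structure Pos (N : ℕ → ℕ) : Prop where
  anti : ∀ j, 1 ≤ j → N (j + 1) ≤ N j
  step : ∀ j, 1 ≤ j → N j ≤ N (j + 1) + 1
  fin : ∃ B, ∀ j, B ≤ j → N j = 0

/-- move at a heap of size `i` -/
structure Opt (N N' : ℕ → ℕ) (i : ℕ) : Prop where
  one : 1 ≤ i
  mem : N i = N (i + 1) + 1
  lt : ∀ j, 1 ≤ j → j < i → N' j + 1 = N (j + 1)
  ge : ∀ j, i ≤ j → N' j = N (j + 1)

/-- the minimum of the path over `[1, r]` is `c` -/
def Mn (N : ℕ → ℕ) (r c : ℕ) : Prop :=
  (∀ j, 1 ≤ j → j ≤ r → c ≤ 2 * N j + j) ∧ ∃ j, 1 ≤ j ∧ j ≤ r ∧ 2 * N j + j = c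

/-- value 0 -/
def C0 (N : ℕ → ℕ) : Prop := ∃ T, Mn N (2 * T + 1) (4 * T + 1)
/-- value 1 -/
def C1 (N : ℕ → ℕ) : Prop := ∃ T, Mn N (2 * T + 1) (4 * T + 3)
/-- values 2 and 3, with the rank `r` and the size `d` of the `r`-th largest heap -/
def CU (N : ℕ → ℕ) (r d : ℕ) : Prop := Mn N r (2 * r) ∧ 1 ≤ d ∧ r ≤ N d ∧ N (d + 1) < r
/-- value 2 -/
def C2 (N : ℕ → ℕ) : Prop := ∃ r d, CU N r d ∧ Odd d
/-- value 3 -/
def C3 (N : ℕ → ℕ) : Prop := ∃ r d, CU N r d ∧ Even d

variable {N N' : ℕ → ℕ} {i : ℕ}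

theorem Opt.lower (h : Opt N N' i) {j : ℕ} (hj : 1 ≤ j) : N (j + 1) ≤ N' j + 1 := by
  rcases lt_or_ge j i with h1 | h1
  · have := h.lt j hj h1; omega
  · have := h.ge j h1; omega

theorem Opt.upper (h : Opt N N' i) {j : ℕ} (hj : 1 ≤ j) : N' j ≤ N (j + 1) := by
  rcases lt_or_ge j i with h1 | h1
  · have := h.lt j hj h1; omega
  · have := h.ge j h1; omega

/-- the number of heaps drops by at least one -/
theorem Opt.card_lt (hN : Pos N) (h : Opt N N' i) : N' 1 + 1 ≤ N 1 := by
  rcases lt_or_ge 1 i with h1 | h1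
  · have h2 := h.lt 1 le_rfl h1
    have h3 := hN.anti 1 le_rfl
    omega
  · have h2 : i = 1 := le_antisymm h1 h.one
    subst h2
    have h3 := h.ge 1 le_rfl
    have h4 := h.mem
    omega

theorem not_C0_of_C0 (hN : Pos N) (h : Opt N N' i) (h0 : C0 N) : ¬ C0 N' := by
  obtain ⟨T, hT, j0, hj1, hj2, hj3⟩ := h0
  rintro ⟨T', hT', j0', hj1', hj2', hj3'⟩
  rcases le_or_gt T T' with hc | hc
  · rcases Nat.lt_or_ge j0 2 with h2 | h2
    · have h3 : j0 = 1 := by omega
      subst h3
      have h4 := h.card_lt hN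
      have h5 := hT' 1 le_rfl (by omega)
      omega
    · obtain ⟨j, rfl⟩ : ∃ j, j0 = j + 1 := ⟨j0 - 1, by omega⟩
      have h4 := h.upper (j := j) (by omega)
      have h5 := hT' j (by omega) (by omega)
      omega
  · have h4 := h.lower hj1'
    have h5 := hT (j0' + 1) (by omega) (by omega)
    omega

theorem not_C1_of_C1 (hN : Pos N) (h : Opt N N' i) (h0 : C1 N) : ¬ C1 N' := by
  obtain ⟨T, hT, j0, hj1, hj2, hj3⟩ := h0
  rintro ⟨T', hT', j0', hj1', hj2', hj3'⟩
  rcases le_or_gt T T' with hc | hc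
  · rcases Nat.lt_or_ge j0 2 with h2 | h2
    · have h3 : j0 = 1 := by omega
      subst h3
      have h4 := h.card_lt hN
      have h5 := hT' 1 le_rfl (by omega)
      omega
    · obtain ⟨j, rfl⟩ : ∃ j, j0 = j + 1 := ⟨j0 - 1, by omega⟩
      have h4 := h.upper (j := j) (by omega)
      have h5 := hT' j (by omega) (by omega)
      omega
  · have h4 := h.lower hj1'
    have h5 := hT (j0' + 1) (by omega) (by omega)
    omega

theorem CU_opt (hN : Pos N) (h : Opt N N' i) {r d r' d' : ℕ} (hU : CU N r d)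
    (hU' : CU N' r' d') : d' + 1 = d := by
  obtain ⟨⟨hr, j0, hj1, hj2, hj3⟩, hd1, hd2, hd3⟩ := hU
  obtain ⟨⟨hr', j0', hj1', hj2', hj3'⟩, hd1', hd2', hd3'⟩ := hU'
  have hj0 : 2 ≤ j0 := by omega
  -- r' ≤ r - 1
  have hlt : r' < r := by
    by_contra hc
    obtain ⟨j, rfl⟩ : ∃ j, j0 = j + 1 := ⟨j0 - 1, by omega⟩
    have h4 := h.upper (j := j) (by omega)
    have h5 := hr' j (by omega) (by omega)
    omega
  have hge : r ≤ r' + 1 := by
    by_contra hc
    have h4 := h.lower hj1'
    have h5 := hr (j0' + 1) (by omega) (by omega)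
    omega
  have hrr : r = r' + 1 := by omega
  subst hrr
  -- the minimum is attained below `i`
  have hj0i : j0' < i := by
    by_contra hc
    have h4 := h.ge j0' (by omega)
    have h5 := hr (j0' + 1) (by omega) (by omega)
    omega
  have h6 := h.lt j0' hj1' hj0i
  have hanti : ∀ a b, 1 ≤ a → a ≤ b → N b ≤ N a := by
    intro a b ha hab
    induction b, hab using Nat.le_induction with
    | base => exact le_rfl
    | succ b hb ih => exact (hN.anti b (by omega)).trans ih
  -- i > d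
  have hid : d < i := by
    by_contra hc
    have h7 := hanti (j0' + 1) d (by omega) (by omega)
    omega
  have hd'i : d' < i := by
    by_contra hc
    have h7 := h.ge d' (by omega)
    have h8 := hanti (d + 1) (d' + 1) (by omega) (by omega)
    have h9 := hanti (i + 1) (d' + 1) (by omega) (by omega)
    have h10 := hanti (d + 1) i (by omega) (by omega)
    have h11 := h.mem
    omega
  have h7 := h.lt d' hd1' hd'i
  have h8 : d ≥ d' + 1 := by
    by_contra hc
    have h9 := hanti (d + 1) (d' + 1) (by omega) (by omega)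
    omega
  by_contra hne
  have h10 : d' + 1 < d := by omega
  have h11 := h.lt (d' + 1) (by omega) (by omega)
  have h12 := hanti (d' + 1 + 1) d (by omega) (by omega)
  omega

theorem not_C2_of_C2 (hN : Pos N) (h : Opt N N' i) (h0 : C2 N) : ¬ C2 N' := by
  obtain ⟨r, d, hU, hd⟩ := h0
  rintro ⟨r', d', hU', hd'⟩
  have := CU_opt hN h hU hU'
  subst this
  rcases hd' with ⟨k, hk⟩
  rcases hd with ⟨l, hl⟩
  omega

theorem not_C3_of_C3 (hN : Pos N) (h : Opt N N' i) (h0 : C3 N) : ¬ C3 N' := by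
  obtain ⟨r, d, hU, hd⟩ := h0
  rintro ⟨r', d', hU', hd'⟩
  have := CU_opt hN h hU hU'
  subst this
  rcases hd' with ⟨k, hk⟩
  rcases hd with ⟨l, hl⟩
  omega

/-- a first index at which the path is low, just after a down step -/
theorem exists_drop (hN : Pos N) {c j0 : ℕ} (h2 : 2 ≤ j0) (hj0 : 2 * N j0 + j0 ≤ c)
    (h1 : 2 * N 2 + 2 ≤ c → N 1 = N 2 + 1) :
    ∃ i, 1 ≤ i ∧ i + 1 ≤ j0 ∧ N i = N (i + 1) + 1 ∧ 2 * N (i + 1) + (i + 1) ≤ c ∧
      ∀ j, 2 ≤ j → j ≤ i → c < 2 * N j + j := by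
  classical
  have hex : ∃ j, 2 ≤ j ∧ 2 * N j + j ≤ c := ⟨j0, h2, hj0⟩
  obtain ⟨hf1, hf2⟩ := Nat.find_spec hex
  set f := Nat.find hex with hf
  have hmin : ∀ j, 2 ≤ j → j < f → c < 2 * N j + j := by
    intro j hj hjf
    by_contra hc
    exact Nat.find_min hex hjf ⟨hj, by omega⟩
  have hle : f ≤ j0 := Nat.find_min' hex ⟨h2, hj0⟩
  obtain ⟨i, hi⟩ : ∃ i, f = i + 1 := ⟨f - 1, by omega⟩
  refine ⟨i, by omega, by omega, ?_, by rw [← hi]; exact hf2, fun j hj hji => hmin j hj (by omega)⟩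
  rcases Nat.lt_or_ge i 2 with h3 | h3
  · have h4 : i = 1 := by omega
    subst h4
    rw [hi] at hf2
    exact h1 hf2
  · have h4 := hmin i h3 (by omega)
    rw [hi] at hf2
    have h6 := hN.anti i (by omega)
    have h7 := hN.step i (by omega)
    omega

/-- there is a heap of size at least `j0` when `N j0 > 0` -/
theorem exists_heap (hN : Pos N) {j0 : ℕ} (h1 : 1 ≤ j0) (h0 : 0 < N j0) :
    ∃ i, j0 ≤ i ∧ N i = N (i + 1) + 1 := by
  by_contra hc
  push Not at hc
  have hall : ∀ k, j0 ≤ k → 0 < N k := by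
    intro k hk
    induction k, hk using Nat.le_induction with
    | base => exact h0
    | succ k hk ih =>
      have h2 := hc k hk
      have h3 := hN.anti k (by omega)
      have h4 := hN.step k (by omega)
      omega
  obtain ⟨B, hB⟩ := hN.fin
  have := hall (max B j0) (le_max_right _ _)
  rw [hB _ (le_max_left _ _)] at this
  exact absurd this (lt_irrefl _)

/-- late move: the minimum over `[1, r - 1]` becomes `2 r - 3` -/
theorem late (hN : Pos N) {r : ℕ} (hr : Mn N r (2 * r)) :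
    ∃ i, 1 ≤ i ∧ N i = N (i + 1) + 1 ∧ ∀ N', Opt N N' i →
      (∀ j, 1 ≤ j → j + 1 ≤ r → 2 * r ≤ 2 * N' j + j + 3) ∧
      ∃ j, 1 ≤ j ∧ j + 1 ≤ r ∧ 2 * N' j + j + 3 = 2 * r ∧ Odd j := by
  obtain ⟨hr, j0, hj1, hj2, hj3⟩ := hr
  have hj0 : 2 ≤ j0 := by omega
  obtain ⟨i, hi1, hi2⟩ := exists_heap hN hj1 (by omega)
  refine ⟨i, by omega, hi2, fun N' hO => ⟨fun j hj hjr => ?_, j0 - 1, by omega, by omega, ?_, ?_⟩⟩
  · have h1 := hO.lower hj
    have h2 := hr (j + 1) (by omega) hjr
    omega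
  · obtain ⟨j, rfl⟩ : ∃ j, j0 = j + 1 := ⟨j0 - 1, by omega⟩
    have h1 := hO.lt j (by omega) (by omega)
    simp only [Nat.add_sub_cancel]
    omega
  · exact ⟨j0 / 2 - 1, by omega⟩

/-- early move: the minimum over `[1, r - 1]` becomes `2 r - 1` -/
theorem early (hN : Pos N) {r : ℕ} (hr : Mn N r (2 * r)) :
    ∃ i, 1 ≤ i ∧ N i = N (i + 1) + 1 ∧ ∀ N', Opt N N' i →
      (∀ j, 1 ≤ j → j + 1 ≤ r → 2 * r ≤ 2 * N' j + j + 1) ∧
      (Odd r → 2 * r ≤ 2 * N' r + r + 1) ∧
      ∃ j, 1 ≤ j ∧ j + 1 ≤ r ∧ 2 * N' j + j + 1 = 2 * r := by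
  obtain ⟨hr, j0, hj1, hj2, hj3⟩ := hr
  have hj0 : 2 ≤ j0 := by omega
  have h1r := hr 1 le_rfl (by omega)
  obtain ⟨i, hi1, hi2, hi3, hi4, hi5⟩ := exists_drop hN (c := 2 * r + 1) hj0 (by omega) (by
    intro h
    have h2 := hr 2 (by omega) (by omega)
    have h3 := hN.anti 1 le_rfl
    have h4 := hN.step 1 le_rfl
    simp only [Nat.reduceAdd] at h3 h4
    omega)
  refine ⟨i, hi1, hi3, fun N' hO => ⟨fun j hj hjr => ?_, fun hodd => ?_, j0 - 1, by omega, by omega, ?_⟩⟩
  · have h2 := hr (j + 1) (by omega) hjr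
    rcases lt_or_ge j i with h3 | h3
    · have h4 := hO.lt j hj h3
      have h5 := hi5 (j + 1) (by omega) (by omega)
      omega
    · have h4 := hO.ge j h3
      omega
  · have h2 := hr r (by omega) le_rfl
    have h4 := hO.ge r (by omega)
    have h5 := hN.step r (by omega)
    obtain ⟨k, hk⟩ := hodd
    omega
  · obtain ⟨j, rfl⟩ : ∃ j, j0 = j + 1 := ⟨j0 - 1, by omega⟩
    have h1 := hO.ge j (by omega)
    simp only [Nat.add_sub_cancel]
    omega

theorem CU_even_rank (hN : Pos N) {r : ℕ} (hr : Mn N r (2 * r)) :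
    (∃ i, 1 ≤ i ∧ N i = N (i + 1) + 1 ∧ ∀ N', Opt N N' i → C0 N') ∧
      (∃ i, 1 ≤ i ∧ N i = N (i + 1) + 1 ∧ ∀ N', Opt N N' i → C1 N') := by
  have hr2 : 2 ≤ r := by
    obtain ⟨-, j0, hj1, hj2, hj3⟩ := hr
    omega
  obtain ⟨i, hi1, hi2, hi3⟩ := late hN hr
  obtain ⟨k, hk1, hk2, hk3⟩ := early hN hr
  rcases Nat.even_or_odd r with he | ho
  · obtain ⟨T, hT⟩ : ∃ T, r = 2 * T + 2 := by
      obtain ⟨m, hm⟩ := he; exact ⟨m - 1, by omega⟩
    refine ⟨⟨i, hi1, hi2, fun N' hO => ⟨T, fun j hj hjT => ?_, ?_⟩⟩,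
      ⟨k, hk1, hk2, fun N' hO => ⟨T, fun j hj hjT => ?_, ?_⟩⟩⟩
    · have := (hi3 N' hO).1 j hj (by omega); omega
    · obtain ⟨j, h1, h2, h3, -⟩ := (hi3 N' hO).2
      exact ⟨j, h1, by omega, by omega⟩
    · have := (hk3 N' hO).1 j hj (by omega); omega
    · obtain ⟨j, h1, h2, h3⟩ := (hk3 N' hO).2.2
      exact ⟨j, h1, by omega, by omega⟩
  · obtain ⟨T, hT⟩ : ∃ T, r = 2 * T + 3 := by
      obtain ⟨m, hm⟩ := ho; exact ⟨m - 1, by omega⟩
    refine ⟨⟨k, hk1, hk2, fun N' hO => ⟨T + 1, fun j hj hjT => ?_, ?_⟩⟩,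
      ⟨i, hi1, hi2, fun N' hO => ⟨T, fun j hj hjT => ?_, ?_⟩⟩⟩
    · rcases Nat.lt_or_ge j r with h | h
      · have := (hk3 N' hO).1 j hj (by omega); omega
      · have h4 : j = r := by omega
        subst h4
        have := (hk3 N' hO).2.1 ho
        omega
    · obtain ⟨j, h1, h2, h3⟩ := (hk3 N' hO).2.2
      exact ⟨j, h1, by omega, by omega⟩
    · have := (hi3 N' hO).1 j hj (by omega); omega
    · obtain ⟨j, h1, h2, h3, m, hm⟩ := (hi3 N' hO).2
      exact ⟨j, h1, by omega, by omega⟩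

theorem exists_C0_of_C1 (hN : Pos N) (h : C1 N) :
    ∃ i, 1 ≤ i ∧ N i = N (i + 1) + 1 ∧ ∀ N', Opt N N' i → C0 N' := by
  obtain ⟨T, hT, j0, hj1, hj2, hj3⟩ := h
  by_cases hex : ∃ j, 2 ≤ j ∧ j ≤ 2 * T + 1 ∧ 2 * N j + j ≤ 4 * T + 3
  · obtain ⟨j1, h1, h2, h3⟩ := hex
    obtain ⟨i, hi1, hi2, hi3, hi4, hi5⟩ := exists_drop hN h1 h3 (by
      intro h
      have h4 := hT 2 (by omega) (by omega)
      omega)
    have h6 := hT (i + 1) (by omega) (by omega)
    refine ⟨i, hi1, hi3, fun N' hO => ⟨T, fun j hj hjT => ?_, i - 1, by omega, by omega, ?_⟩⟩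
    · rcases lt_or_ge j i with h7 | h7
      · have h8 := hO.lt j hj h7
        have h9 := hi5 (j + 1) (by omega) (by omega)
        omega
      · have h8 := hO.ge j h7
        rcases Nat.lt_or_ge j (2 * T + 1) with h10 | h10
        · have h9 := hT (j + 1) (by omega) (by omega)
          omega
        · have h9 := hT j hj (by omega)
          have h11 := hN.step j hj
          omega
    · obtain ⟨k, rfl⟩ : ∃ k, i = k + 1 := ⟨i - 1, by omega⟩
      have h8 := hO.lt k (by omega) (by omega)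
      simp only [Nat.add_sub_cancel]
      omega
  · push Not at hex
    have hj0 : j0 = 1 := by
      by_contra hc
      have := hex j0 (by omega) hj2
      omega
    subst hj0
    obtain ⟨i, hi1, hi2⟩ := exists_heap hN le_rfl (by omega : 0 < N 1)
    have hanti : ∀ a b, 1 ≤ a → a ≤ b → N b ≤ N a := by
      intro a b ha hab
      induction b, hab using Nat.le_induction with
      | base => exact le_rfl
      | succ b hb ih => exact (hN.anti b (by omega)).trans ih
    refine ⟨i, hi1, hi2, fun N' hO => ?_⟩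
    have h1 : N' 1 + 1 = N 1 := by
      rcases lt_or_ge 1 i with h7 | h7
      · have h8 := hO.lt 1 le_rfl h7
        have h9 := hanti 1 2 le_rfl (by omega)
        have h10 := hanti 2 i (by omega) h7
        rcases Nat.eq_zero_or_pos T with h0 | h0
        · subst h0
          simp only [Nat.reduceAdd] at h8
          omega
        · have h11 := hex 2 le_rfl (by omega)
          simp only [Nat.reduceAdd] at h8
          omega
      · have h8 := hO.ge 1 h7
        have h9 : i = 1 := by omega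
        subst h9
        omega
    refine ⟨T, fun j hj hjT => ?_, 1, le_rfl, by omega, by omega⟩
    rcases Nat.lt_or_ge j 2 with h7 | h7
    · have : j = 1 := by omega
      subst this
      omega
    · have h8 := hO.lower hj
      rcases Nat.lt_or_ge j (2 * T + 1) with h10 | h10
      · have h9 := hex (j + 1) (by omega) (by omega)
        omega
      · have h9 := hex j h7 (by omega)
        have h11 := hN.step j hj
        omega

theorem exists_C2_of_C3 (hN : Pos N) (h : C3 N) :
    ∃ i, 1 ≤ i ∧ N i = N (i + 1) + 1 ∧ ∀ N', Opt N N' i → C2 N' := by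
  obtain ⟨r, d, ⟨⟨hr, j0, hj1, hj2, hj3⟩, hd1, hd2, hd3⟩, hd⟩ := h
  have hanti : ∀ a b, 1 ≤ a → a ≤ b → N b ≤ N a := by
    intro a b ha hab
    induction b, hab using Nat.le_induction with
    | base => exact le_rfl
    | succ b hb ih => exact (hN.anti b (by omega)).trans ih
  obtain ⟨m, hm⟩ := hd
  have h2d := hanti 2 d (by omega) (by omega)
  obtain ⟨i, hi1, hi2, hi3, hi4, hi5⟩ := exists_drop hN (c := 2 * r) (j0 := j0) (by omega)
    (by omega) (by intro h; omega)
  have h6 := hr (i + 1) (by omega) (by omega)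
  have hi2' : 2 ≤ i := by
    by_contra hc
    have : i = 1 := by omega
    subst this
    simp only [Nat.reduceAdd] at hi4
    omega
  have hdi : d < i := by
    by_contra hc
    have h7 := hanti i d (by omega) (by omega)
    omega
  refine ⟨i, hi1, hi3, fun N' hO => ⟨r - 1, d - 1,
    ⟨⟨fun j hj hjr => ?_, i - 1, by omega, by omega, ?_⟩, by omega, ?_, ?_⟩, ?_⟩⟩
  · rcases lt_or_ge j i with h7 | h7
    · have h8 := hO.lt j hj h7
      have h9 := hi5 (j + 1) (by omega) (by omega)
      omega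
    · have h8 := hO.ge j h7
      have h9 := hr (j + 1) (by omega) (by omega)
      omega
  · obtain ⟨k, rfl⟩ : ∃ k, i = k + 1 := ⟨i - 1, by omega⟩
    have h8 := hO.lt k (by omega) (by omega)
    simp only [Nat.add_sub_cancel]
    omega
  · obtain ⟨k, rfl⟩ : ∃ k, d = k + 1 := ⟨d - 1, by omega⟩
    have h8 := hO.lt k (by omega) (by omega)
    simp only [Nat.add_sub_cancel]
    omega
  · have h8 := hO.lt d (by omega) (by omega)
    have h9 : d - 1 + 1 = d := by omega
    rw [h9]
    omega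
  · exact ⟨m - 1, by omega⟩

theorem trichotomy (hN : Pos N) : C0 N ∨ C1 N ∨ C2 N ∨ C3 N := by
  classical
  have hex : ∃ R, 1 ≤ R ∧ ∃ j, 1 ≤ j ∧ j ≤ R ∧ 2 * N j + j ≤ 2 * R :=
    ⟨N 1 + 1, by omega, 1, le_rfl, by omega, by omega⟩
  obtain ⟨hR1, j0, hj1, hj2, hj3⟩ := Nat.find_spec hex
  set R := Nat.find hex with hRdef
  have hmin : ∀ r, 1 ≤ r → r < R → ∀ j, 1 ≤ j → j ≤ r → 2 * r < 2 * N j + j := by
    intro r hr hrR j hj hjr
    by_contra hc
    exact Nat.find_min hex hrR ⟨hr, j, hj, hjr, by omega⟩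
  rcases Nat.lt_or_ge R 2 with h1 | h1
  · have h2 : R = 1 := by omega
    rw [h2] at hj2 hj3
    have h3 : j0 = 1 := by omega
    rw [h3] at hj3
    left
    refine ⟨0, fun j hj hj' => by omega, 1, le_rfl, by omega, by omega⟩
  · have hlow : ∀ j, 1 ≤ j → j ≤ R - 1 → 2 * R ≤ 2 * N j + j + 1 := by
      intro j hj hjR
      have := hmin (R - 1) (by omega) (by omega) j hj hjR
      omega
    have hlowR : 2 * R ≤ 2 * N R + R + 2 := by
      have h2 := hlow (R - 1) (by omega) le_rfl
      have h3 := hN.step (R - 1) (by omega)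
      have h4 : R - 1 + 1 = R := by omega
      rw [h4] at h3
      omega
    by_cases hU : (∀ j, 1 ≤ j → j ≤ R → 2 * R ≤ 2 * N j + j)
    · have hM : Mn N R (2 * R) := by
        refine ⟨hU, j0, hj1, hj2, ?_⟩
        have := hU j0 hj1 hj2
        omega
      -- the rank heap
      have hr1 : R ≤ N 1 := by
        have := hU 1 le_rfl (by omega)
        omega
      have hexd : ∃ d, N (d + 1 + 1) < R := by
        obtain ⟨B, hB⟩ := hN.fin
        exact ⟨B, by rw [hB _ (by omega)]; omega⟩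
      have hd1 := Nat.find_spec hexd
      set f := Nat.find hexd with hf
      have hd2 : R ≤ N (f + 1) := by
        rcases Nat.eq_zero_or_pos f with h0 | h0
        · rw [h0]; exact hr1
        · have := Nat.find_min hexd (m := f - 1) (by omega)
          have h4 : f - 1 + 1 + 1 = f + 1 := by omega
          rw [h4] at this
          omega
      right; right
      rcases Nat.even_or_odd (f + 1) with he | ho
      · right; exact ⟨R, f + 1, ⟨hM, by omega, hd2, hd1⟩, he⟩
      · left; exact ⟨R, f + 1, ⟨hM, by omega, hd2, hd1⟩, ho⟩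
    · push Not at hU
      obtain ⟨j1, h2, h3, h4⟩ := hU
      -- S(j1) < 2 R
      by_cases hodd : Odd R ∧ 2 * N j1 + j1 + 1 = 2 * R
      · left
        obtain ⟨⟨T, hT⟩, h5⟩ := hodd
        refine ⟨T, fun j hj hjT => ?_, j1, h2, by omega, by omega⟩
        rcases Nat.lt_or_ge j R with h6 | h6
        · have := hlow j hj (by omega); omega
        · have h7 : j = R := by omega
          rw [h7]
          omega
      · right; left
        -- R is even and the minimum over [1, R - 1] is 2 R - 1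
        have hpar : Even R := by
          rcases Nat.even_or_odd R with he | ho
          · exact he
          · exfalso
            apply hodd
            refine ⟨ho, ?_⟩
            obtain ⟨T, hT⟩ := ho
            rcases Nat.lt_or_ge j1 R with h6 | h6
            · have := hlow j1 h2 (by omega); omega
            · have h7 : j1 = R := by omega
              rw [h7] at h4 ⊢
              omega
        obtain ⟨m, hm⟩ := hpar
        have hatt : ∃ j, 1 ≤ j ∧ j ≤ R - 1 ∧ 2 * N j + j + 1 = 2 * R := by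
          rcases Nat.lt_or_ge j1 R with h6 | h6
          · refine ⟨j1, h2, by omega, ?_⟩
            have := hlow j1 h2 (by omega); omega
          · have h7 : j1 = R := by omega
            rw [h7] at h4
            refine ⟨R - 1, by omega, le_rfl, ?_⟩
            have h8 := hlow (R - 1) (by omega) le_rfl
            have h9 := hN.anti (R - 1) (by omega)
            have h10 := hN.step (R - 1) (by omega)
            have h11 : R - 1 + 1 = R := by omega
            rw [h11] at h9 h10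
            omega
        obtain ⟨j, h5, h6, h7⟩ := hatt
        refine ⟨m - 1, fun j hj hjT => ?_, j, h5, by omega, by omega⟩
        have := hlow j hj (by omega)
        omega

end Pool.Agent.Work.MP_c8e9c8_co
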